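import Pool.Agent.Helper27.BI.S5.Geo5
import Pool.Agent.Helper27.BI.GBasic

/-!
# Project BI, stage 5, module IO3: `io` is homotopic to the inclusion in the complement of the wall
-/

set_option autoImplicit false
set_option linter.unusedSectionVars false

open scoped Manifold ContDiff Topology ComplexConjugate
open Set Filter Pool.Agent.Helper65.Barb Pool.Agent.Helper18.BI
open Pool.Agent.Helper70.BI (I4 LD NearEq ld_iff contDiff_dfam contDiff_dfam_inv)
open Pool.Agent.Helper34.BI (rade qe)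
open Pool.Agent.Helper27.BI (e1 imp_image imp_off)
open Pool.Agent.Helper27.H

namespace Pool.Agent.Helper27.S5

namespace IO3

/-- near the image of `D` the transported family is `G ∘ h ∘ G⁻¹` -/
theorem near {G : R4 → R4} {h : ℝ × R4 → R4} {D : Set R4}
    (hGI : InjOn G D) (Φ : PartialDiffeomorph 𝓘(ℝ, R4) I4 R4 R4 ∞) (hΦ1 : D ⊆ Φ.source)
    (hΦ2 : ∀ p ∈ Φ.source, Φ p = G p) {t : ℝ} {y : R4} (hy : y ∈ Φ.target)
    (hf : Φ.symm y ∉ D → h (t, Φ.symm y) = Φ.symm y) :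
    imp G D (fun p => h (t, p)) y = G (h (t, Φ.symm y)) := by
  have hs : Φ.symm y ∈ Φ.source := Φ.map_target hy
  have h4 : G (Φ.symm y) = y := by
    rw [← hΦ2 _ hs]
    exact Φ.right_inv hy
  by_cases hD : Φ.symm y ∈ D
  · have h5 : imp G D (fun p => h (t, p)) (G (Φ.symm y)) = G (h (t, Φ.symm y)) :=
      imp_image hGI hD
    rw [h4] at h5
    exact h5
  · rw [hf hD, h4]
    apply imp_off
    rintro ⟨r, hr, hrz⟩
    have hr1 : r ∈ Φ.source := hΦ1 hr
    have h6 : Φ r = y := by rw [hΦ2 r hr1, hrz]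
    have h7 : Φ.symm y = r := by rw [← h6]; exact Φ.left_inv hr1
    rw [h7] at hD
    exact hD hr

/-- continuity of a transported homotopy -/
theorem cont_imp {G : R4 → R4} {h : ℝ × R4 → R4} {D B : Set R4} {I : Set ℝ} (hD : IsCompact D)
    (hG : EmbOn I4 G D) (h1 : ∀ t ∈ I, ∀ p ∈ D \ B, ContinuousAt h (t, p))
    (h2 : ∀ t ∈ I, ∀ p ∈ D \ B, h (t, p) ∈ D)
    (h3 : ∀ t ∈ I, ∀ p ∈ D \ B, ∀ᶠ z : ℝ × R4 in 𝓝 (t, p), z.2 ∉ D → h z = z.2) :
    ContinuousOn (fun w : ℝ × R4 => imp G D (fun p => h (w.1, p)) w.2)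
      (I ×ˢ (G '' (D ∩ B))ᶜ) := by
  obtain ⟨Φ, hΦ1, hΦ2⟩ := hA1 R4 R4 R4 I4 R4 G D hD hG.1 hG.2
  have hGc : ContinuousOn G D := fun p hp =>
    ((hG.1 p hp).contMDiffAt.continuousAt).continuousWithinAt
  have hGDc : IsClosed (G '' D) := (hD.image_of_continuousOn hGc).isClosed
  rintro ⟨t, y⟩ ⟨ht, hy⟩
  apply ContinuousAt.continuousWithinAt
  by_cases hyD : y ∈ G '' D
  · obtain ⟨p, hp, hpy⟩ := hyD
    have hpB : p ∉ B := fun hb => hy ⟨p, ⟨hp, hb⟩, hpy⟩
    have hps : p ∈ Φ.source := hΦ1 hp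
    have hΦp : Φ p = y := by rw [hΦ2 p hps, hpy]
    have hyt : y ∈ Φ.target := hΦp ▸ Φ.map_source hps
    have hsy : Φ.symm y = p := by
      rw [← hΦp]
      exact Φ.left_inv hps
    have hsymm : ContinuousAt Φ.symm y :=
      (Φ.contMDiffOn_invFun.contMDiffAt (Φ.open_target.mem_nhds hyt)).continuousAt
    have c1 : ContinuousAt (fun w : ℝ × R4 => ((w.1, Φ.symm w.2) : ℝ × R4)) (t, y) := by
      apply ContinuousAt.prodMk continuousAt_fst
      exact ContinuousAt.comp (f := fun w : ℝ × R4 => w.2) (x := (t, y)) hsymm continuousAt_snd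
    have e0 : ((t, Φ.symm y) : ℝ × R4) = (t, p) := by rw [hsy]
    have c2 : ∀ᶠ w : ℝ × R4 in 𝓝 (t, y), w.2 ∈ Φ.target :=
      continuousAt_snd.eventually (Φ.open_target.mem_nhds hyt)
    have c4 : ∀ᶠ w : ℝ × R4 in 𝓝 (t, y), Φ.symm w.2 ∉ D → h (w.1, Φ.symm w.2) = Φ.symm w.2 := by
      apply c1.eventually (p := fun z : ℝ × R4 => z.2 ∉ D → h z = z.2)
      show ∀ᶠ z in 𝓝 ((t, Φ.symm y) : ℝ × R4), z.2 ∉ D → h z = z.2
      rw [e0]
      exact h3 t ht p ⟨hp, hpB⟩
    have c6 : ContinuousAt (fun w : ℝ × R4 => h (w.1, Φ.symm w.2)) (t, y) := by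
      have k : ContinuousAt h (t, Φ.symm y) := by
        rw [e0]
        exact h1 t ht p ⟨hp, hpB⟩
      exact ContinuousAt.comp (f := fun w : ℝ × R4 => ((w.1, Φ.symm w.2) : ℝ × R4))
        (x := (t, y)) k c1
    have c7 : ContinuousAt (fun w : ℝ × R4 => G (h (w.1, Φ.symm w.2))) (t, y) := by
      have k : ContinuousAt G (h (t, Φ.symm y)) := by
        rw [hsy]
        exact (hG.1 _ (h2 t ht p ⟨hp, hpB⟩)).contMDiffAt.continuousAt
      exact ContinuousAt.comp (f := fun w : ℝ × R4 => h (w.1, Φ.symm w.2)) (x := (t, y)) k c6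
    refine c7.congr ?_
    filter_upwards [c2, c4] with v v2 v4
    exact (near hG.2 Φ hΦ1 hΦ2 v2 v4).symm
  · have c1 : ∀ᶠ w : ℝ × R4 in 𝓝 (t, y), w.2 ∉ G '' D :=
      (continuousAt_snd (p := ((t, y) : ℝ × R4))).eventually (hGDc.isOpen_compl.mem_nhds hyD)
    refine (continuousAt_snd (p := ((t, y) : ℝ × R4))).congr ?_
    filter_upwards [c1] with v hv
    exact (imp_off hv).symm

theorem ev_lt {f : ℝ × R4 → ℝ} (hf : Continuous f) {z : ℝ × R4} {r : ℝ} (h : f z < r) :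
    ∀ᶠ w in 𝓝 z, f w < r := (isOpen_lt hf continuous_const).mem_nhds h

theorem ev_gt {f : ℝ × R4 → ℝ} (hf : Continuous f) {z : ℝ × R4} {r : ℝ} (h : r < f z) :
    ∀ᶠ w in 𝓝 z, r < f w := (isOpen_lt continuous_const hf).mem_nhds h

theorem nsq_conv {x y : R3} {t r : ℝ} (ht : t ∈ Icc (0 : ℝ) 1) (hx : nsq x ≤ r) (hy : nsq y ≤ r) :
    nsq ((1 - t) • x + t • y) ≤ r := by
  rw [Geo.nsq_def] at hx hy
  have e : nsq ((1 - t) • x + t • y) = ((1 - t) * x.1 + t * y.1) ^ 2 +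
      ((1 - t) * x.2.re + t * y.2.re) ^ 2 + ((1 - t) * x.2.im + t * y.2.im) ^ 2 := by
    rw [Geo.nsq_def]
    simp
  rw [e]
  have key : ∀ u v : ℝ, ((1 - t) * u + t * v) ^ 2 ≤ (1 - t) * u ^ 2 + t * v ^ 2 := by
    intro u v
    nlinarith [mul_nonneg (mul_nonneg ht.1 (sub_nonneg.2 ht.2)) (sq_nonneg (u - v))]
  have k1 := key x.1 y.1
  have k2 := key x.2.re y.2.re
  have k3 := key x.2.im y.2.im
  have k4 := mul_le_mul_of_nonneg_left hx (sub_nonneg.2 ht.2)
  have k5 := mul_le_mul_of_nonneg_left hy ht.1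
  nlinarith

/-- the homotopy inside the second hole -/
noncomputable def hA (c : ℝ) (z : ℝ × R4) : R4 :=
  (z.2.1, z.2.2 - (min (2 * z.1) 1 * bfin z.2.1) • e1 -
    (max (2 * z.1 - 1) 0 * (1 - lam c z.2.1)) • (z.2.2 - e1))

/-- the homotopy outside the second hole -/
noncomputable def hB (H : DFam 𝓘(ℝ, R4) R4) (δ κ β : ℝ) (z : ℝ × R4) : R4 :=
  H.f (1, (1 - z.1) • H.g (1, z.2) + z.1 • rad2 δ κ β (H.g (1, z.2)))

/-- the homotopy -/
noncomputable def hh (H : DFam 𝓘(ℝ, R4) R4) (c δ κ β : ℝ) (z : ℝ × R4) : R4 :=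
  open Classical in if rsq 1 (sgi κ β z.2) < 1 / 25 - 2 * δ then hA c z else hB H δ κ β z

theorem continuous_lam (c : ℝ) : Continuous (lam c) := by
  unfold lam
  have hs : Continuous step := Real.smoothTransition.continuous
  fun_prop

theorem continuous_hA (c : ℝ) : Continuous (hA c) := by
  have h1 := continuous_lam c
  have h2 : Continuous bfin := contDiff_bfin.continuous
  unfold hA
  fun_prop

theorem hh_a {H : DFam 𝓘(ℝ, R4) R4} {c δ κ β : ℝ} {z : ℝ × R4}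
    (h : rsq 1 (sgi κ β z.2) < 1 / 25 - 2 * δ) : hh H c δ κ β z = hA c z := by
  unfold hh
  rw [if_pos h]

theorem hh_b {H : DFam 𝓘(ℝ, R4) R4} {c δ κ β : ℝ} {z : ℝ × R4}
    (h : ¬ rsq 1 (sgi κ β z.2) < 1 / 25 - 2 * δ) : hh H c δ κ β z = hB H δ κ β z := by
  unfold hh
  rw [if_neg h]

/-- the exceptional set -/
def BB (δ κ β c a b : ℝ) : Set R4 :=
  wallS δ ∪ wall2 δ κ β ∪ {p | p.2 = z2 c β p.1 ∧ a ≤ p.1 ∧ p.1 ≤ b}

section sys
variable {G T T' : R4 → R4} {δ δ' κ β c : ℝ} {D D' : ArcD} {H : DFam 𝓘(ℝ, R4) R4} {a b : ℝ}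
  (hS : Sys G T T' δ δ' κ β c D D' H a b)
include hS

theorem rsq_gt {p : R4} (h : p ∈ Reg δ' \ BB δ' κ β c a b) : 1 / 25 - δ' < rsq 1 p := by
  by_contra h1
  push Not at h1
  exact h.2 (Or.inl (Or.inl ⟨h.1.1, h.1.2.1, h.1.2.2.1, h1⟩))

theorem sgi_or {p : R4} (h : p ∈ Reg δ' \ BB δ' κ β c a b) :
    rsq 1 (sgi κ β p) < 1 / 25 - 3 * δ' ∨ 1 / 25 - δ' < rsq 1 (sgi κ β p) := by
  by_contra h1
  push Not at h1
  exact h.2 (Or.inl (Or.inr ⟨h.1.1, h.1.2.1, h1.1, h1.2⟩))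

theorem embReg : EmbOn I4 G (Reg δ') :=
  ⟨fun p hp => hS.emb.1 p (Geo.Reg_K3 hp), hS.emb.2.mono Geo.Reg_K3⟩

theorem pos_q {p : R4} (h : p ∈ Reg δ' \ BB δ' κ β c a b)
    (hb : 1 / 25 - δ' < rsq 1 (sgi κ β p)) : 0 < rsq 1 (sgi κ β (H.g (1, p))) := by
  rw [Geo.sgi_pos_iff hS.par.k0]
  intro hq
  have e1' : H.g (1, p) = ((H.g (1, p)).1, P2 β) := Prod.ext rfl hq
  have e2 : p = ((H.g (1, p)).1, z2 c β (H.g (1, p)).1) := by
    rw [← Geo.H_P2 hS.th hS.par, ← e1', H.fg]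
  have e3' := congrArg (fun r : R4 => r.1) e2
  have e3 : p.1 = (H.g (1, p)).1 := e3'
  rw [← e3] at e2
  by_cases hs : p.1 ∈ Icc a b
  · exact h.2 (Or.inr ⟨congrArg Prod.snd e2, hs.1, hs.2⟩)
  · have h1 := Geo.H_P2_out hS.th hS.par hS.mc (Geo.hδ' hS.par) hS.ab hs
    rw [← e2] at h1
    exact absurd hb (not_lt.2 h1)

/-- the homotopy stays off the wall -/
theorem maps {t : ℝ} (ht : t ∈ Icc (0 : ℝ) 1) {p : R4} (h : p ∈ Reg δ' \ BB δ' κ β c a b) :
    hh H c δ' κ β (t, p) ∈ Reg δ' ∧ 1 / 25 - δ' < rsq 1 (hh H c δ' κ β (t, p)) := by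
  have hp := hS.par
  have hd := Geo.hδ' hp
  have hpos : 0 < δ' := hd.1
  suffices hv : 0 ≤ (hh H c δ' κ β (t, p)).1 ∧ (hh H c δ' κ β (t, p)).1 ≤ 1 ∧
      1 / 25 - δ' < rsq 1 (hh H c δ' κ β (t, p)) ∧ rsq 1 (hh H c δ' κ β (t, p)) ≤ 49 / 100 by
    exact ⟨⟨hv.1, hv.2.1, by linarith [hv.2.2.1], hv.2.2.2⟩, hv.2.2.1⟩
  rcases sgi_or hS h with h1 | h1
  · rw [hh_a (z := (t, p)) (show rsq 1 (sgi κ β p) < 1 / 25 - 2 * δ' by linarith)]
    refine ⟨h.1.1, h.1.2.1, ?_⟩
    obtain ⟨g1, g2, g3⟩ := Geo.comp hp (Geo.near_of hp (p := p) (by linarith))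
    set u : ℝ := min (2 * t) 1 with hu
    set v : ℝ := max (2 * t - 1) 0 with hv
    have u0 : 0 ≤ u := le_min (by linarith [ht.1]) (by norm_num)
    have u1 : u ≤ 1 := min_le_right _ _
    have v0 : 0 ≤ v := le_max_right _ _
    have v1 : v ≤ 1 := max_le (by linarith [ht.2]) (by norm_num)
    have l0 := Geo.lam_pos hS.mc p.1
    have l1 := Geo.lam_le hS.mc p.1
    set m : ℝ := 1 - v * (1 - lam c p.1) with hm
    have m0 : 0 < m := by
      have : v * (1 - lam c p.1) ≤ 1 * (1 - lam c p.1) :=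
        mul_le_mul_of_nonneg_right v1 (by linarith)
      linarith
    have m1 : m ≤ 1 := by
      have := mul_nonneg v0 (sub_nonneg.2 l1)
      linarith
    have e : rsq 1 (hA c (t, p)) = (m * (p.2.1 - 1) - u * bfin p.1) ^ 2 + (m * p.2.2.re) ^ 2 +
        (m * p.2.2.im) ^ 2 := by
      rw [Geo.rsq1]
      unfold hA
      simp only [Geo.e1_def, ← hu, ← hv, hm]
      simp
      ring
    rw [e]
    have e2 : nsq (p.2 - e1) = (p.2.1 - 1) ^ 2 + p.2.2.re ^ 2 + p.2.2.im ^ 2 := by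
      rw [Geo.nsq_def, Geo.e1_def]
      simp
    rw [e2] at g3
    have b0 := bfin_nonneg p.1
    have b1 := bfin_le p.1
    have n1 := Geo.num_lo hp
    have n2 := Geo.num_hi hp
    have n3 := Geo.num_k hp
    have k0 := hp.k0
    have a1 : |m * (p.2.1 - 1)| ≤ κ := by
      rw [abs_mul, abs_of_pos m0]
      calc m * |p.2.1 - 1| ≤ 1 * |p.2.1 - 1| := mul_le_mul_of_nonneg_right m1 (abs_nonneg _)
        _ ≤ κ := by rw [one_mul]; exact g1
    rw [abs_le] at a1
    obtain ⟨a1, a1'⟩ := a1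
    have ub0 : 0 ≤ u * bfin p.1 := mul_nonneg u0 b0
    have ub1 : u * bfin p.1 ≤ 27 / 100 := by
      calc u * bfin p.1 ≤ 1 * bfin p.1 := mul_le_mul_of_nonneg_right u1 b0
        _ ≤ 27 / 100 := by rw [one_mul]; exact b1
    constructor
    · by_cases hl : v * (1 - lam c p.1) = 0
      · have hm1 : m = 1 := by rw [hm, hl, sub_zero]
        rw [hm1, one_mul, one_mul, one_mul]
        have q1 : (β - κ) ^ 2 ≤ p.2.2.re ^ 2 := pow_le_pow_left₀ (by linarith [hp.k1]) g2 2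
        have q2 := hp.lo
        have q3 := sq_nonneg (p.2.1 - 1 - u * bfin p.1)
        have q4 := sq_nonneg p.2.2.im
        linarith
      · have hl1 : lam c p.1 ≠ 1 := by
          intro hl1
          exact hl (by rw [hl1, sub_self, mul_zero])
        have hv0 : v ≠ 0 := by
          intro hv0
          exact hl (by rw [hv0, zero_mul])
        have ht2 : 0 < 2 * t - 1 := by
          by_contra hcon
          push Not at hcon
          exact hv0 (by rw [hv]; exact max_eq_right hcon)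
        have hu1 : u = 1 := by rw [hu]; exact min_eq_right (by linarith)
        rw [hu1, one_mul, Geo.bfin_of_lam hl1]
        have q1 : (1 / 4) ^ 2 ≤ (m * (p.2.1 - 1) - 27 / 100) ^ 2 := by
          rw [← neg_sq (m * (p.2.1 - 1) - 27 / 100)]
          exact pow_le_pow_left₀ (by norm_num) (by linarith) 2
        have q3 := sq_nonneg (m * p.2.2.re)
        have q4 := sq_nonneg (m * p.2.2.im)
        norm_num at q1
        linarith
    · have a2 : (m * (p.2.1 - 1) - u * bfin p.1) ^ 2 ≤ (3 / 10) ^ 2 := by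
        apply sq_le_sq'
        · linarith
        · linarith
      have a3 : (m * p.2.2.re) ^ 2 + (m * p.2.2.im) ^ 2 ≤ 1 / 25 := by
        have q0 : (β + κ) ^ 2 ≤ 1 / 25 := by linarith [hp.hi, hp.d0]
        have q1 : p.2.2.re ^ 2 + p.2.2.im ^ 2 ≤ 1 / 25 := by
          linarith [sq_nonneg (p.2.1 - 1)]
        have q2 : m ^ 2 ≤ 1 := pow_le_one₀ m0.le m1
        have q3 : (m * p.2.2.re) ^ 2 + (m * p.2.2.im) ^ 2 =
            m ^ 2 * (p.2.2.re ^ 2 + p.2.2.im ^ 2) := by ring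
        rw [q3]
        calc m ^ 2 * (p.2.2.re ^ 2 + p.2.2.im ^ 2) ≤
              1 * (p.2.2.re ^ 2 + p.2.2.im ^ 2) :=
              mul_le_mul_of_nonneg_right q2 (by positivity)
          _ ≤ 1 / 25 := by rw [one_mul]; exact q1
      norm_num at a2
      linarith
  · rw [hh_b (z := (t, p)) (show ¬ rsq 1 (sgi κ β p) < 1 / 25 - 2 * δ' by linarith)]
    unfold hB
    show 0 ≤ (H.f (1, (1 - t) • H.g (1, p) + t • rad2 δ' κ β (H.g (1, p)))).1 ∧ _
    obtain ⟨r1, r2, r3⟩ := Geo.H_reg_g hS.th (t := 1) h.1.1 h.1.2.1 h.1.2.2.2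
    rcases le_or_gt (1 / 25 - δ') (rsq 1 (sgi κ β (H.g (1, p)))) with h2 | h2
    · rw [Geo.rad2_fix hd hp.k0 β h2, ← add_smul, sub_add_cancel, one_smul, H.fg]
      exact ⟨h.1.1, h.1.2.1, rsq_gt hS h, h.1.2.2.2⟩
    · have hq := pos_q hS h h1
      have k1 : nsq ((H.g (1, p)).2 - P2 β) ≤ κ ^ 2 := Geo.near_of hp (by linarith)
      have k2 : nsq ((rad2 δ' κ β (H.g (1, p))).2 - P2 β) ≤ κ ^ 2 :=
        Geo.near_of hp (by linarith [Geo.rad2_le hd hp.k0 β hq h2.le])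
      set w : R4 := (1 - t) • H.g (1, p) + t • rad2 δ' κ β (H.g (1, p)) with hw
      have w1 : w.1 = (H.g (1, p)).1 := by
        rw [hw]
        show (1 - t) * (H.g (1, p)).1 + t * (rad2 δ' κ β (H.g (1, p))).1 = _
        rw [Geo.rad2_fst]
        ring
      have w2 : nsq (w.2 - P2 β) ≤ κ ^ 2 := by
        have e : w.2 - P2 β = (1 - t) • ((H.g (1, p)).2 - P2 β) +
            t • ((rad2 δ' κ β (H.g (1, p))).2 - P2 β) := by
          rw [hw]
          show (1 - t) • (H.g (1, p)).2 + t • (rad2 δ' κ β (H.g (1, p))).2 - P2 β = _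
          rw [smul_sub, smul_sub, sub_smul, sub_smul, one_smul, one_smul]
          abel
        rw [e]
        exact nsq_conv ht k1 k2
      obtain ⟨v1, v2⟩ := Geo.H_near_rsq hS.th hp hS.mc w2
      have v3 : (H.f (1, w)).1 = w.1 := by rw [Geo.H_near hS.th hp w2]
      rw [v3, w1]
      exact ⟨r1, r2, v1, v2⟩

theorem cont_at (t : ℝ) {p : R4} (h : p ∈ Reg δ' \ BB δ' κ β c a b) :
    ContinuousAt (hh H c δ' κ β) (t, p) := by
  have hp := hS.par
  have hd := Geo.hδ' hp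
  have hpos : 0 < δ' := hd.1
  have hc : Continuous (fun z : ℝ × R4 => rsq 1 (sgi κ β z.2)) :=
    (Geo.continuous_rsq_sgi κ β).comp continuous_snd
  rcases sgi_or hS h with h1 | h1
  · have h2 : ∀ᶠ z : ℝ × R4 in 𝓝 (t, p), rsq 1 (sgi κ β z.2) < 1 / 25 - 2 * δ' :=
      ev_lt hc (show rsq 1 (sgi κ β p) < 1 / 25 - 2 * δ' by linarith)
    refine (continuous_hA c).continuousAt.congr ?_
    filter_upwards [h2] with z hz
    exact (hh_a hz).symm
  · have h2 : ∀ᶠ z : ℝ × R4 in 𝓝 (t, p), 1 / 25 - 2 * δ' < rsq 1 (sgi κ β z.2) :=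
      ev_gt hc (show 1 / 25 - 2 * δ' < rsq 1 (sgi κ β p) by linarith)
    have c1 : Continuous (fun z : ℝ × R4 => H.g (1, z.2)) :=
      (contDiff_dfam_inv H).continuous.comp (continuous_const.prodMk continuous_snd)
    have c2 : ContinuousAt (rad2 δ' κ β) (H.g (1, p)) :=
      (((Geo.rad2_emb hd hp.k0 β).1 _ (pos_q hS h h1)).contMDiffAt).continuousAt
    have c3 : ContinuousAt (fun z : ℝ × R4 => rad2 δ' κ β (H.g (1, z.2))) (t, p) :=
      ContinuousAt.comp (f := fun z : ℝ × R4 => H.g (1, z.2)) (x := (t, p)) c2 c1.continuousAt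
    have c4 : ContinuousAt (fun z : ℝ × R4 => (1 - z.1) • H.g (1, z.2) +
        z.1 • rad2 δ' κ β (H.g (1, z.2))) (t, p) := by
      have k1 : ContinuousAt (fun z : ℝ × R4 => 1 - z.1) (t, p) :=
        (continuous_const.sub continuous_fst).continuousAt
      have k2 : ContinuousAt (fun z : ℝ × R4 => z.1) (t, p) := continuous_fst.continuousAt
      exact (k1.smul c1.continuousAt).add (k2.smul c3)
    have c5 : ContinuousAt (hB H δ' κ β) (t, p) := by
      have k : Continuous (fun q : R4 => H.f (1, q)) :=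
        (contDiff_dfam H).continuous.comp (continuous_const.prodMk continuous_id)
      exact ContinuousAt.comp (g := fun q : R4 => H.f (1, q)) (x := (t, p)) k.continuousAt c4
    refine c5.congr ?_
    filter_upwards [h2] with z hz
    exact (hh_b (not_lt.2 hz.le)).symm

theorem ev_fix (t : ℝ) {p : R4} (h : p ∈ Reg δ' \ BB δ' κ β c a b) :
    ∀ᶠ z : ℝ × R4 in 𝓝 (t, p), z.2 ∉ Reg δ' → hh H c δ' κ β z = z.2 := by
  have hp := hS.par
  have hd := Geo.hδ' hp
  have hpos : 0 < δ' := hd.1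
  have hc : Continuous (fun z : ℝ × R4 => rsq 1 (sgi κ β z.2)) :=
    (Geo.continuous_rsq_sgi κ β).comp continuous_snd
  have hr : Continuous (fun z : ℝ × R4 => rsq 1 z.2) := Geo.continuous_rsq1.comp continuous_snd
  have h3 : ∀ᶠ z : ℝ × R4 in 𝓝 (t, p), 1 / 25 - 3 * δ' < rsq 1 z.2 :=
    ev_gt hr (show 1 / 25 - 3 * δ' < rsq 1 p by linarith [rsq_gt hS h])
  rcases sgi_or hS h with h1 | h1
  · have h2 : ∀ᶠ z : ℝ × R4 in 𝓝 (t, p), rsq 1 (sgi κ β z.2) < 1 / 25 - 2 * δ' :=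
      ev_lt hc (show rsq 1 (sgi κ β p) < 1 / 25 - 2 * δ' by linarith)
    have h4 : ∀ᶠ z : ℝ × R4 in 𝓝 (t, p), rsq 1 z.2 < 49 / 100 := by
      apply ev_lt hr
      have := Geo.rsq_hi hp (Geo.near_of hp (p := p) (by linarith))
      show rsq 1 p < 49 / 100
      linarith [hp.d0]
    filter_upwards [h2, h3, h4] with z z2' z3 z4 hz
    rw [hh_a z2']
    have hs : z.2.1 ≤ 0 ∨ 1 ≤ z.2.1 := by
      by_contra hcon
      push Not at hcon
      exact hz ⟨hcon.1.le, hcon.2.le, z3.le, z4.le⟩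
    have b : bfin z.2.1 = 0 := bfin_out (by rcases hs with hs | hs
                                            · left; linarith
                                            · right; linarith)
    have l : lam c z.2.1 = 1 := Geo.lam_out c (by rcases hs with hs | hs
                                                  · left; linarith
                                                  · right; linarith)
    unfold hA
    rw [b, l, mul_zero, zero_smul, sub_zero, sub_self, mul_zero, zero_smul, sub_zero]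
  · have h2 : ∀ᶠ z : ℝ × R4 in 𝓝 (t, p), 1 / 25 - δ' < rsq 1 (sgi κ β z.2) :=
      ev_gt hc (show 1 / 25 - δ' < rsq 1 (sgi κ β p) by linarith)
    filter_upwards [h2, h3] with z z2' z3 hz
    rw [hh_b (by linarith)]
    have hs : z.2.1 ≤ 1 / 20 ∨ 19 / 20 ≤ z.2.1 ∨ 49 / 100 ≤ rsq 1 z.2 := by
      by_contra hcon
      push Not at hcon
      exact hz ⟨by linarith [hcon.1], by linarith [hcon.2.1], z3.le, hcon.2.2.le⟩
    unfold hB
    rw [Geo.H_supp_g hS.th hs, Geo.rad2_fix hd hp.k0 β z2'.le, ← add_smul, sub_add_cancel,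
      one_smul, hS.th.supp 1 _ hs]

theorem sub_BB {x : R4} (hx : x ∈ U2 G δ' κ β \ A2 G H β a b) :
    x ∉ G '' (Reg δ' ∩ BB δ' κ β c a b) := by
  rintro ⟨p, ⟨-, hpB⟩, rfl⟩
  rcases hpB with hpB | ⟨h1, h2, h3⟩
  · exact hx.1 ⟨p, hpB, rfl⟩
  · refine hx.2 ⟨(p.1, P2 β), ⟨rfl, h2, h3⟩, ?_⟩
    show G (H.f (1, (p.1, P2 β))) = G p
    rw [Geo.H_P2 hS.th hS.par, ← h1]

theorem hh_zero {p : R4} : hh H c δ' κ β (0, p) = p := by
  by_cases h : rsq 1 (sgi κ β p) < 1 / 25 - 2 * δ'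
  · rw [hh_a (z := (0, p)) h]
    unfold hA
    have e1' : min (2 * (0 : ℝ)) 1 = 0 := by norm_num
    have e2 : max (2 * (0 : ℝ) - 1) 0 = 0 := by norm_num
    simp only [e1', e2, zero_mul, zero_smul, sub_zero]
  · rw [hh_b (z := (0, p)) h]
    unfold hB
    simp only [sub_zero, one_smul, zero_smul, add_zero]
    exact H.fg 1 p

theorem hh_one {p : R4} : hh H c δ' κ β (1, p) = hio H δ' κ β p := by
  have hp := hS.par
  have hd := Geo.hδ' hp
  have hpos : 0 < δ' := hd.1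
  unfold hio
  by_cases h : rsq 1 (sgi κ β p) < 1 / 25 - 2 * δ'
  · rw [hh_a (z := (1, p)) h, if_pos h,
      Geo.H_near hS.th hp (Geo.near_of hp (p := p) (by linarith))]
    unfold hA
    have e1' : min (2 * (1 : ℝ)) 1 = 1 := by norm_num
    have e2 : max (2 * (1 : ℝ) - 1) 0 = 1 := by norm_num
    simp only [e1', e2, one_mul]
    refine Prod.ext rfl ?_
    show p.2 - bfin p.1 • e1 - (1 - lam c p.1) • (p.2 - e1) =
      (1 - bfin p.1) • e1 + lam c p.1 • (p.2 - e1)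
    rw [sub_smul, sub_smul, one_smul, one_smul]
    abel
  · rw [hh_b (z := (1, p)) h, if_neg h]
    unfold hB
    simp only [sub_self, zero_smul, one_smul, zero_add]

end sys

end IO3

open IO3 in
/-- **IO3.** -/
theorem m_IO3 : StIO3 := by
  intro G T T' δ δ' κ β c D D' H a b hS
  have hp := hS.par
  have hd := Geo.hδ' hp
  have hpos : 0 < δ' := hd.1
  have hG := embReg hS
  refine ⟨fun z => imp G (Reg δ') (fun p => hh H c δ' κ β (z.1, p)) z.2, ?_, ?_, ?_⟩
  · refine (cont_imp (I := Icc (0 : ℝ) 1) (B := BB δ' κ β c a b) (Geo.isCompact_Reg δ') hG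
      (fun t _ p h => cont_at hS t h) (fun t ht p h => (maps hS ht h).1)
      (fun t _ p h => ev_fix hS t h)).mono ?_
    rintro ⟨t, x⟩ ⟨ht, hx⟩
    exact ⟨ht, sub_BB hS hx⟩
  · intro x hx
    by_cases hxR : x ∈ G '' Reg δ'
    · obtain ⟨p, hpR, rfl⟩ := hxR
      constructor
      · show imp G (Reg δ') (fun p => hh H c δ' κ β (0, p)) (G p) = G p
        rw [imp_image hG.2 hpR, hh_zero hS]
      · show imp G (Reg δ') (fun p => hh H c δ' κ β (1, p)) (G p) = io G H δ' κ β (G p)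
        unfold io
        rw [imp_image hG.2 hpR, imp_image hG.2 hpR, hh_one hS]
    · constructor
      · exact imp_off hxR
      · show imp G (Reg δ') (fun p => hh H c δ' κ β (1, p)) x = io G H δ' κ β x
        unfold io
        rw [imp_off hxR, imp_off hxR]
  · intro t ht x hx
    by_cases hxR : x ∈ G '' Reg δ'
    · obtain ⟨p, hpR, rfl⟩ := hxR
      have hpB : p ∈ Reg δ' \ BB δ' κ β c a b :=
        ⟨hpR, fun h => sub_BB hS hx ⟨p, ⟨hpR, h⟩, rfl⟩⟩
      have hv := maps hS ht hpB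
      show imp G (Reg δ') (fun p => hh H c δ' κ β (t, p)) (G p) ∈ D'.U ∧
        (G p ∈ D'.A → imp G (Reg δ') (fun p => hh H c δ' κ β (t, p)) (G p) = G p)
      rw [imp_image hG.2 hpR]
      constructor
      · rw [hS.hat'.U]
        rintro ⟨q, hq, hqe⟩
        have hqR : q ∈ Reg δ' := Geo.wall_Reg hp hq
        have e := hG.2 hqR hv.1 hqe
        rw [← e] at hv
        exact absurd hv.2 (not_lt.2 hq.2.2.2)
      · rintro ⟨r, hr, hre⟩
        rw [hS.hat'.J] at hre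
        have hr2 : r.2 = 0 := hr.2.2
        have hre' : G (r.1, z0 r.1) = G p := by
          rw [← hre]
          show _ = G (r.1, z0 r.1 + r.2)
          rw [hr2, add_zero]
        have hb : 1 / 25 - δ' ≤ bfin r.1 ^ 2 := by
          rcases hr.1.lt_or_eq with g1 | g1
          · rcases hr.2.1.lt_or_eq with g2 | g2
            · exact (hS.hat'.b _ ⟨g1, g2⟩).le
            · rw [g2]; exact hS.hat'.b₁.ge
          · rw [← g1]; exact hS.hat'.b₀.ge
        have e3 : rsq 1 ((r.1, z0 r.1) : R4) = bfin r.1 ^ 2 := by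
          rw [Geo.rsq1, Geo.z0_def]
          simp
        have hrR : ((r.1, z0 r.1) : R4) ∈ Reg δ' := by
          refine ⟨?_, ?_, ?_, ?_⟩
          · have := hr.1; have := hS.hat'.s₀.1; show 0 ≤ r.1; linarith
          · have := hr.2.1; have := hS.hat'.s₁.2; show r.1 ≤ 1; linarith
          · rw [e3]; linarith
          · rw [e3]
            have b0 := bfin_nonneg r.1
            have b1 := bfin_le r.1
            nlinarith
        have e4 : ((r.1, z0 r.1) : R4) = p := hG.2 hrR hpR hre'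
        rw [← e4]
        have e5 : ¬ rsq 1 (sgi κ β ((r.1, z0 r.1) : R4)) < 1 / 25 - 2 * δ' := by
          rw [Geo.rsq_sgi hp.k0, not_lt, le_div_iff₀ (by have := hp.k0; positivity)]
          have e6 : nsq (((r.1, z0 r.1) : R4).2 - P2 β) = bfin r.1 ^ 2 + β ^ 2 := by
            rw [Geo.nsq_def]
            show (z0 r.1 - P2 β).1 ^ 2 + (z0 r.1 - P2 β).2.re ^ 2 + (z0 r.1 - P2 β).2.im ^ 2 = _
            rw [Geo.z0_def]
            unfold P2
            simp
          rw [e6]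
          have k0 := hp.k0
          have k1 := hp.k1
          have k2 : κ ^ 2 ≤ β ^ 2 := pow_le_pow_left₀ k0.le k1.le 2
          nlinarith [sq_nonneg (bfin r.1), sq_nonneg κ]
        rw [hh_b (z := (t, (r.1, z0 r.1))) e5]
        unfold hB
        show G (H.f (1, (1 - t) • H.g (1, (r.1, z0 r.1)) +
          t • rad2 δ' κ β (H.g (1, (r.1, z0 r.1))))) = _
        rw [Geo.H_g_line hS.th, Geo.rad2_e1 hp, ← add_smul, sub_add_cancel, one_smul,
          hS.th.line]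
    · have e : imp G (Reg δ') (fun p => hh H c δ' κ β (t, p)) x = x := imp_off hxR
      show imp G (Reg δ') (fun p => hh H c δ' κ β (t, p)) x ∈ D'.U ∧
        (x ∈ D'.A → imp G (Reg δ') (fun p => hh H c δ' κ β (t, p)) x = x)
      rw [e]
      refine ⟨?_, fun _ => rfl⟩
      rw [hS.hat'.U]
      rintro ⟨q, hq, hqe⟩
      exact hx.1 ⟨q, Or.inl hq, hqe⟩

end Pool.Agent.Helper27.S5
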